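import Pool.Agent.V1126.LLFinal

set_option autoImplicit false

namespace Pool.Agent.Results.MP_ec556a_an.NotDual

open Pool.Agent.V1126.LL MeasureTheory

/-- `L_1 + L_∞` over `(0,∞)` (the normed space `SumSp` of `Pool.Agent.V1126.LLDef`: a.e. classes
`x = u + v` of real measurable functions on `(0,∞)` with `u ∈ L_1`, `v ∈ L_∞` and norm
`‖x‖ = inf (‖u‖_1 + ‖v‖_∞)`) is not isomorphic (linearly homeomorphic) to the dual of any real
normed space `Y`; in particular it is not isomorphic to a dual Banach space. -/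
theorem result.{u} (Y : Type u) [NormedAddCommGroup Y] [NormedSpace ℝ Y] :
    IsEmpty (SumSp ≃L[ℝ] StrongDual ℝ Y) :=
  ⟨fun e => no_dual e⟩

end Pool.Agent.Results.MP_ec556a_an.NotDual
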